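import Pool.Agent.K7.H82.PB.Main

set_option autoImplicit false

namespace Pool.Agent.Results.MP_642244_an.RigidSpace

open Pool.Agent.K7.H82.PB

/-- For every `0 < p < 1` there is a `p`-Banach space `X` such that every Lipschitz map from `X`
to `X` has the form `x ↦ c + l x`, no continuous linear map of `F_p(X)` to `F_p(X) × F_p(X)` is
surjective, and `F_p(X)` is not isomorphic to `ℓ_p(F_p(X))`.  Here `‖v‖` is the `p`-th power of
the `p`-norm of `v`. -/
theorem result (p : ℝ) [Fact (0 < p)] (hp1 : p < 1) :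
    ∃ (X : Type) (_ : NormedAddCommGroup X) (_ : Module ℝ X) (_ : PNormed p X)
      (_ : CompleteSpace X),
      (∀ f : X → X, (∃ C : ℝ, ∀ x y, ‖f x - f y‖ ≤ C * ‖x - y‖) →
        ∃ l : ℝ, ∀ x, f x = f 0 + l • x) ∧
      (∀ T : FreeP p X →L[ℝ] FreeP p X × FreeP p X, ¬ Function.Surjective T) ∧
      IsEmpty (FreeP p X ≃L[ℝ] EllP p (FreeP p X)) :=
  main p hp1

end Pool.Agent.Results.MP_642244_an.RigidSpace
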